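import Mathlib

/-! Everywhere convergent power series: the ring and the evaluation maps. -/

set_option autoImplicit false

namespace Pool.Agent.Y232.IL

open PowerSeries Filter Topology

lemma term_mul (φ ψ : PowerSeries ℂ) (z : ℂ) (n : ℕ) :
    ∑ kl ∈ Finset.HasAntidiagonal.antidiagonal n, (coeff kl.1 φ * z ^ kl.1) * (coeff kl.2 ψ * z ^ kl.2) =
      coeff n (φ * ψ) * z ^ n := by
  rw [PowerSeries.coeff_mul, Finset.sum_mul]
  refine Finset.sum_congr rfl fun kl hkl => ?_
  rw [← Finset.HasAntidiagonal.mem_antidiagonal.1 hkl, pow_add]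
  ring

lemma finite_summable {f : ℕ → ℝ} (N : ℕ) (h : ∀ m, N < m → f m = 0) : Summable f :=
  summable_of_ne_finset_zero (s := Finset.range (N + 1)) fun m hm =>
    h m (by rw [Finset.mem_range] at hm; omega)

/-- everywhere absolutely convergent power series -/
noncomputable def Conv : Subring (PowerSeries ℂ) where
  carrier := {φ | ∀ ρ : ℝ, 0 < ρ → Summable fun m => ‖coeff m φ‖ * ρ ^ m}
  mul_mem' := by
    intro φ ψ hφ hψ ρ hρ
    have h1 : ∀ χ : PowerSeries ℂ, ∀ m, ‖coeff m χ * (ρ : ℂ) ^ m‖ = ‖coeff m χ‖ * ρ ^ m := by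
      intro χ m
      rw [norm_mul, norm_pow, Complex.norm_real, Real.norm_eq_abs, abs_of_pos hρ]
    have hf : Summable fun m => ‖coeff m φ * (ρ : ℂ) ^ m‖ := by
      simp only [h1]; exact hφ ρ hρ
    have hg : Summable fun m => ‖coeff m ψ * (ρ : ℂ) ^ m‖ := by
      simp only [h1]; exact hψ ρ hρ
    have h2 := summable_norm_sum_mul_antidiagonal_of_summable_norm hf hg
    simp only [term_mul, h1] at h2
    exact h2
  one_mem' := by
    intro ρ hρ
    refine finite_summable 0 fun m hm => ?_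
    rw [PowerSeries.coeff_one, if_neg (by omega), norm_zero, zero_mul]
  add_mem' := by
    intro φ ψ hφ hψ ρ hρ
    refine Summable.of_nonneg_of_le (fun m => by positivity) (fun m => ?_)
      ((hφ ρ hρ).add (hψ ρ hρ))
    rw [map_add, ← add_mul]
    exact mul_le_mul_of_nonneg_right (norm_add_le _ _) (by positivity)
  zero_mem' := by
    intro ρ hρ
    simp
  neg_mem' := by
    intro φ hφ ρ hρ
    simpa using hφ ρ hρ

lemma mem_Conv {φ : PowerSeries ℂ} :
    φ ∈ Conv ↔ ∀ ρ : ℝ, 0 < ρ → Summable fun m => ‖coeff m φ‖ * ρ ^ m := Iff.rfl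

lemma summ {φ : PowerSeries ℂ} (hφ : φ ∈ Conv) (z : ℂ) :
    Summable fun m => ‖coeff m φ * z ^ m‖ := by
  refine Summable.of_nonneg_of_le (fun m => norm_nonneg _) (fun m => ?_)
    (hφ (‖z‖ + 1) (by positivity))
  rw [norm_mul, norm_pow]
  gcongr
  linarith

/-- the evaluation at `z` -/
noncomputable def ev (z : ℂ) : Conv →+* ℂ where
  toFun φ := ∑' m, coeff m (φ : PowerSeries ℂ) * z ^ m
  map_one' := by
    rw [tsum_eq_single 0]
    · simp
    · intro m hm
      simp [PowerSeries.coeff_one, hm]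
  map_mul' := by
    intro φ ψ
    rw [tsum_mul_tsum_eq_tsum_sum_antidiagonal_of_summable_norm (summ φ.2 z) (summ ψ.2 z)]
    simp only [term_mul]
    rfl
  map_zero' := by simp
  map_add' := by
    intro φ ψ
    rw [← ((summ φ.2 z).of_norm).tsum_add ((summ ψ.2 z).of_norm)]
    refine tsum_congr fun m => ?_
    rw [← add_mul, ← map_add]
    rfl

lemma ev_apply (z : ℂ) (φ : Conv) : ev z φ = ∑' m, coeff m (φ : PowerSeries ℂ) * z ^ m := rfl

lemma ev_hasSum (z : ℂ) (φ : Conv) :
    HasSum (fun m => coeff m (φ : PowerSeries ℂ) * z ^ m) (ev z φ) :=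
  ((summ φ.2 z).of_norm).hasSum

lemma coe_mem (p : Polynomial ℂ) : (p : PowerSeries ℂ) ∈ Conv := by
  intro ρ hρ
  refine finite_summable p.natDegree fun m hm => ?_
  rw [Polynomial.coeff_coe, Polynomial.coeff_eq_zero_of_natDegree_lt hm, norm_zero, zero_mul]

lemma ev_coe (z : ℂ) (p : Polynomial ℂ) : ev z ⟨p, coe_mem p⟩ = p.eval z := by
  rw [ev_apply, Polynomial.eval_eq_sum_range]
  simp only [Polynomial.coeff_coe]
  refine tsum_eq_sum fun m hm => ?_
  rw [Finset.mem_range] at hm
  rw [Polynomial.coeff_eq_zero_of_natDegree_lt (by omega), zero_mul]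

/-- the evaluation is entire -/
lemma ev_diff (φ : Conv) : Differentiable ℂ (fun z => ev z φ) := by
  intro z
  have h : DifferentiableOn ℂ (fun w : ℂ => ∑' m, coeff m (φ : PowerSeries ℂ) * w ^ m)
      (Metric.ball 0 (‖z‖ + 1)) := by
    refine Complex.differentiableOn_tsum_of_summable_norm (φ.2 (‖z‖ + 1) (by positivity))
      (fun m => by fun_prop) Metric.isOpen_ball (fun m w hw => ?_)
    rw [norm_mul, norm_pow]
    have := mem_ball_zero_iff.1 hw
    gcongr
  exact h.differentiableAt (Metric.isOpen_ball.mem_nhds (by simp))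

/-- uniqueness of the coefficients -/
lemma eq_zero_of_ev {φ : Conv} (h : ∀ z, ev z φ = 0) : (φ : PowerSeries ℂ) = 0 := by
  have h1 : HasFPowerSeriesAt (0 : ℂ → ℂ)
      (FormalMultilinearSeries.ofScalars ℂ fun m => coeff m (φ : PowerSeries ℂ)) 0 := by
    rw [hasFPowerSeriesAt_iff]
    refine Filter.Eventually.of_forall fun z => ?_
    have h2 := ev_hasSum z φ
    rw [h z] at h2
    simpa [FormalMultilinearSeries.coeff_ofScalars, mul_comm] using h2
  have h3 := h1.eq_zero
  ext m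
  have h4 := congrArg (fun q => q.coeff m) h3
  simp only [FormalMultilinearSeries.coeff_ofScalars] at h4
  rw [h4, map_zero]
  simp [FormalMultilinearSeries.coeff]

lemma eq_of_ev {φ ψ : Conv} (h : ∀ z, ev z φ = ev z ψ) :
    (φ : PowerSeries ℂ) = (ψ : PowerSeries ℂ) := by
  have h1 : ((φ - ψ : Conv) : PowerSeries ℂ) = 0 :=
    eq_zero_of_ev fun z => by rw [map_sub, h z, sub_self]
  exact sub_eq_zero.1 h1

/-- evaluation of an integral equation -/
lemma ev_eval₂ {s : PowerSeries ℂ} (hs : s ∈ Conv) (P : Polynomial (Polynomial ℂ))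
    (hP : P.eval₂ (Polynomial.coeToPowerSeries.ringHom (R := ℂ)) s = 0) (z : ℂ) :
    (P.map (Polynomial.evalRingHom z)).eval (ev z ⟨s, hs⟩) = 0 := by
  obtain ⟨c, hc⟩ : ∃ c : Polynomial ℂ →+* Conv, c =
      (Polynomial.coeToPowerSeries.ringHom (R := ℂ)).codRestrict Conv coe_mem := ⟨_, rfl⟩
  have h1 : P.eval₂ c ⟨s, hs⟩ = 0 := by
    apply Subtype.ext
    have h2 := Polynomial.hom_eval₂ P c Conv.subtype ⟨s, hs⟩
    have h3 : Conv.subtype.comp c = Polynomial.coeToPowerSeries.ringHom (R := ℂ) := by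
      rw [hc]
      rfl
    rw [h3] at h2
    exact h2.trans hP
  have h4 := Polynomial.hom_eval₂ P c (ev z) ⟨s, hs⟩
  rw [h1, map_zero] at h4
  have h5 : (ev z).comp c = Polynomial.evalRingHom z := by
    rw [hc]
    ext p
    · exact (ev_coe z _).trans rfl
    · exact (ev_coe z _).trans rfl
  rw [h5] at h4
  rw [Polynomial.eval_map]
  exact h4.symm

end Pool.Agent.Y232.IL
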