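import Pool.Agent.Y377.IL.Stm
import Pool.Agent.W552.Emb
import Pool.Agent.Y232.IL.Conv

/-! Formal solutions of linear systems over the polynomials which are integral. -/

set_option autoImplicit false

namespace Pool.Agent.Y232.IL

open PowerSeries Pool.Agent.Y377.IL

/-! ### Change of the field -/

lemma map_deriv {K K' : Type} [Field K] [Field K'] (φ : K →+* K') (s : PowerSeries K) :
    PowerSeries.map φ (PowerSeries.derivative K s) =
      PowerSeries.derivative K' (PowerSeries.map φ s) := by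
  ext m
  simp [PowerSeries.coeff_derivative]

lemma map_ode {K K' : Type} [Field K] [Field K'] (φ : K →+* K') {k : ℕ}
    (A : Fin k → Fin k → Polynomial K) (s : Fin k → PowerSeries K) (i : Fin k) :
    PowerSeries.map φ (∑ j, (A i j : PowerSeries K) * s j) =
      ∑ j, ((A i j).map φ : PowerSeries K') * PowerSeries.map φ (s j) := by
  rw [map_sum]
  refine Finset.sum_congr rfl fun j _ => ?_
  rw [map_mul, Polynomial.polynomial_map_coe]

lemma map_int {K K' : Type} [Field K] [Field K'] (φ : K →+* K')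
    (P : Polynomial (Polynomial K)) (s : PowerSeries K) :
    PowerSeries.map φ (P.eval₂ (Polynomial.coeToPowerSeries.ringHom (R := K)) s) =
      (P.map (Polynomial.mapRingHom φ)).eval₂ (Polynomial.coeToPowerSeries.ringHom (R := K'))
        (PowerSeries.map φ s) := by
  rw [Polynomial.hom_eval₂, Polynomial.eval₂_map]
  congr 1
  ext m
  · simp
  · simp

/-! ### The complex case -/

lemma complex_case (hE : S_ENT) (hP : S_PC) (k : ℕ) (A : Fin k → Fin k → Polynomial ℂ)
    (s : Fin k → PowerSeries ℂ)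
    (hs : ∀ i, PowerSeries.derivative ℂ (s i) = ∑ j, (A i j : PowerSeries ℂ) * s j)
    (hI : ∀ i, ∃ P : Polynomial (Polynomial ℂ), P.Monic ∧
      P.eval₂ (Polynomial.coeToPowerSeries.ringHom (R := ℂ)) (s i) = 0) (i : Fin k) :
    ∃ p : Polynomial ℂ, s i = (p : PowerSeries ℂ) := by
  have hconv : ∀ i, s i ∈ Conv := by
    intro i ρ hρ
    refine hE k (fun m => Matrix.of fun i j => (A i j).coeff m) (fun m i => coeff m (s i))
      ?_ ?_ ρ hρ i
    · intro ρ _ i j
      refine finite_summable (A i j).natDegree fun m hm => ?_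
      simp only [Matrix.of_apply]
      rw [Polynomial.coeff_eq_zero_of_natDegree_lt hm, norm_zero, zero_mul]
    · intro m i
      have h1 := congrArg (coeff m) (hs i)
      rw [PowerSeries.coeff_derivative, map_sum] at h1
      rw [mul_comm, h1, Finset.sum_comm]
      refine Finset.sum_congr rfl fun j _ => ?_
      rw [PowerSeries.coeff_mul]
      have h2 := Finset.Nat.sum_antidiagonal_eq_sum_range_succ_mk
        (fun kl : ℕ × ℕ => coeff kl.1 (A i j : PowerSeries ℂ) * coeff kl.2 (s j)) m
      rw [h2]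
      refine Finset.sum_congr rfl fun l _ => ?_
      simp only [Polynomial.coeff_coe, Matrix.of_apply]
  obtain ⟨P, hPm, hP0⟩ := hI i
  obtain ⟨p, hp⟩ := hP (fun z => ev z ⟨s i, hconv i⟩) (ev_diff _) P hPm
    (ev_eval₂ (hconv i) P hP0)
  refine ⟨p, ?_⟩
  have h1 := eq_of_ev (φ := ⟨s i, hconv i⟩) (ψ := ⟨p, coe_mem p⟩) (fun z => by
    rw [ev_coe]
    exact hp z)
  exact h1

/-! ### The general case -/

theorem t_POLY : S_ENT → S_PC → S_POLY := by
  intro hE hP F _ _ k A s hs hI
  choose P hPm hP0 using hI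
  obtain ⟨S, hS⟩ : ∃ S : Set F, S = (⋃ i, ⋃ m, {coeff m (s i)}) ∪
      (⋃ i, ⋃ j, ⋃ m, {(A i j).coeff m}) ∪ ⋃ i, ⋃ m, ⋃ l, {((P i).coeff m).coeff l} := ⟨_, rfl⟩
  have hSc : S.Countable := by
    rw [hS]
    refine Set.Countable.union (Set.Countable.union ?_ ?_) ?_
    · exact Set.countable_iUnion fun i => Set.countable_iUnion fun m => Set.countable_singleton _
    · exact Set.countable_iUnion fun i => Set.countable_iUnion fun j =>
        Set.countable_iUnion fun m => Set.countable_singleton _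
    · exact Set.countable_iUnion fun i => Set.countable_iUnion fun m =>
        Set.countable_iUnion fun l => Set.countable_singleton _
  obtain ⟨F0, ι, hF0⟩ := Pool.Agent.W552.exists_subfield_hom S hSc
  have hsF : ∀ i m, coeff m (s i) ∈ F0 := fun i m => hF0 (by
    rw [hS]
    exact Or.inl (Or.inl (Set.mem_iUnion.2 ⟨i, Set.mem_iUnion.2 ⟨m, rfl⟩⟩)))
  have hAF : ∀ i j m, (A i j).coeff m ∈ F0 := fun i j m => hF0 (by
    rw [hS]
    exact Or.inl (Or.inr (Set.mem_iUnion.2 ⟨i, Set.mem_iUnion.2 ⟨j, Set.mem_iUnion.2 ⟨m, rfl⟩⟩⟩)))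
  have hPF : ∀ i m l, ((P i).coeff m).coeff l ∈ F0 := fun i m l => hF0 (by
    rw [hS]
    exact Or.inr (Set.mem_iUnion.2 ⟨i, Set.mem_iUnion.2 ⟨m, Set.mem_iUnion.2 ⟨l, rfl⟩⟩⟩))
  -- descent to `F0`
  obtain ⟨s0, hs0⟩ : ∃ s0 : Fin k → PowerSeries F0, ∀ i, PowerSeries.map F0.subtype (s0 i) = s i :=
    ⟨fun i => PowerSeries.mk fun m => ⟨coeff m (s i), hsF i m⟩, fun i => by
      ext m
      simp⟩
  have hlift : ∀ p : Polynomial F, (∀ m, p.coeff m ∈ F0) → p ∈ Polynomial.lifts F0.subtype := by
    intro p hp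
    rw [Polynomial.lifts_iff_coeff_lifts]
    exact fun m => ⟨⟨_, hp m⟩, rfl⟩
  have hA0 : ∀ i j, ∃ q : Polynomial F0, q.map F0.subtype = A i j := fun i j =>
    (Polynomial.mem_lifts _).1 (hlift _ (hAF i j))
  choose A0 hA0 using hA0
  have hP1 : ∀ i, ∃ Q : Polynomial (Polynomial F0), Q.map (Polynomial.mapRingHom F0.subtype) = P i ∧
      Q.Monic := by
    intro i
    have h1 : P i ∈ Polynomial.lifts (Polynomial.mapRingHom F0.subtype) := by
      rw [Polynomial.lifts_iff_coeff_lifts]
      intro m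
      obtain ⟨q, hq⟩ := (Polynomial.mem_lifts _).1 (hlift _ (hPF i m))
      exact ⟨q, by simpa using hq⟩
    obtain ⟨q, hq, -, hq'⟩ := Polynomial.lifts_and_natDegree_eq_and_monic h1 (hPm i)
    exact ⟨q, hq, hq'⟩
  choose Q hQ hQm using hP1
  have hinj : Function.Injective (PowerSeries.map F0.subtype) :=
    PowerSeries.map_injective _ F0.subtype.injective
  have ode0 : ∀ i, PowerSeries.derivative F0 (s0 i) =
      ∑ j, (A0 i j : PowerSeries F0) * s0 j := by
    intro i
    apply hinj
    rw [map_deriv, map_ode, hs0, hs i]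
    refine Finset.sum_congr rfl fun j _ => ?_
    rw [hA0, hs0]
  have int0 : ∀ i, (Q i).eval₂ (Polynomial.coeToPowerSeries.ringHom (R := F0)) (s0 i) = 0 := by
    intro i
    apply hinj
    rw [map_int, map_zero, hQ, hs0]
    exact hP0 i
  -- passage to the complex numbers
  have cc := complex_case hE hP k (fun i j => (A0 i j).map ι) (fun i => PowerSeries.map ι (s0 i))
    (fun i => by rw [← map_deriv, ode0, map_ode])
    (fun i => ⟨(Q i).map (Polynomial.mapRingHom ι), (hQm i).map _, by
      rw [← map_int, int0, map_zero]⟩)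
  intro i
  obtain ⟨p, hp⟩ := cc i
  have hz : ∀ m, p.natDegree < m → coeff m (s i) = 0 := by
    intro m hm
    have h1 := congrArg (coeff m) hp
    rw [PowerSeries.coeff_map, Polynomial.coeff_coe,
      Polynomial.coeff_eq_zero_of_natDegree_lt hm, _root_.map_eq_zero] at h1
    rw [← hs0, PowerSeries.coeff_map, h1, map_zero]
  refine ⟨PowerSeries.trunc (p.natDegree + 1) (s i), ?_⟩
  ext m
  rw [Polynomial.coeff_coe, PowerSeries.coeff_trunc]
  split_ifs with h
  · rfl
  · exact hz m (by omega)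

end Pool.Agent.Y232.IL
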